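import Pool.Agent.Helper93.TP.Defs2

/-!
Module TP-5: the degeneration step (codimension three), explicit.
-/

namespace Pool.Agent.Helper93.TP

open MvPolynomial Module

namespace Horace

/-- products of four variables span the forms of degree four -/
theorem homog_four_le {τ : Type*} {S : Submodule ℂ (MvPolynomial τ ℂ)}
    (h : ∀ a b c d : τ, (X a : MvPolynomial τ ℂ) * X b * (X c * X d) ∈ S) :
    homogeneousSubmodule τ ℂ 4 ≤ S := by
  rw [← homogeneousSubmodule_one_pow, homogeneousSubmodule_one_eq_span_X, Submodule.span_pow,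
    Submodule.span_le]
  intro z hz
  rw [Set.mem_pow] at hz
  obtain ⟨f, rfl⟩ := hz
  choose g hg using fun i => (f i).2
  rw [List.prod_ofFn, Fin.prod_univ_four, ← hg 0, ← hg 1, ← hg 2, ← hg 3, mul_assoc]
  exact h _ _ _ _

theorem X_mul_X_mem {τ : Type*} (a b : τ) :
    (X a : MvPolynomial τ ℂ) * X b ∈ homogeneousSubmodule τ ℂ 2 :=
  (isHomogeneous_X ℂ a).mul (isHomogeneous_X ℂ b)

theorem rename_mem {σ τ : Type*} (f : σ → τ) {n : ℕ} {p : MvPolynomial σ ℂ}
    (hp : p ∈ homogeneousSubmodule σ ℂ n) : rename f p ∈ homogeneousSubmodule τ ℂ n :=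
  IsHomogeneous.rename_isHomogeneous hp

theorem lf_mem {τ : Type*} [Fintype τ] (b : τ → ℂ) : lf b ∈ homogeneousSubmodule τ ℂ 1 := by
  unfold lf
  exact Submodule.sum_mem _ fun i _ => Submodule.smul_mem _ _ (isHomogeneous_X ℂ i)

theorem mem_W {τ ι : Type*} [Fintype τ] {B : ι → τ → ℂ} (i : ι) {q : MvPolynomial τ ℂ}
    (hq : q ∈ homogeneousSubmodule τ ℂ 2) : lf (B i) ^ 2 * q ∈ W 4 B :=
  Submodule.mem_iSup_of_mem i ⟨q, hq, rfl⟩

theorem W_comp {τ ι κ : Type*} [Fintype τ] (e : ι ≃ κ) (B : κ → τ → ℂ) :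
    W 4 (B ∘ e) = W 4 B := by
  unfold W
  exact e.iSup_comp (g := fun i => (homogeneousSubmodule τ ℂ 2).map
    (LinearMap.mulLeft ℂ (lf (B i) ^ (4 - 2))))

variable {σ : Type*} [Fintype σ]

theorem lf_elim (b : σ → ℂ) (η : Fin 3 → ℂ) : lf (Sum.elim b η) =
    rename Sum.inl (lf b) + ∑ y, η y • (X (Sum.inr y) : MvPolynomial (σ ⊕ Fin 3) ℂ) := by
  unfold lf
  rw [Fintype.sum_sum_type]
  simp

/-- the points -/
noncomputable def pts {K r : ℕ} [DecidableEq σ] (cl : σ → Fin (K + 1))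
    (nn : Fin (K + 1) → Fin 3 → ℂ) (B : Fin r → σ → ℂ) :
    Fin r ⊕ ({i // cl i ≠ 0} ⊕ (Fin 3 ⊕ Fin 3)) → (σ ⊕ Fin 3) → ℂ
  | Sum.inl i => Sum.elim (B i) 0
  | Sum.inr (Sum.inl i) => Sum.elim (Pi.single i.1 1) (nn (cl i.1))
  | Sum.inr (Sum.inr (Sum.inl y)) => Sum.elim 0 (Pi.single y 1)
  | Sum.inr (Sum.inr (Sum.inr y)) => Sum.elim 0 (Pi.single y 1 + Pi.single (y + 1) 1)

theorem lf_zero {τ : Type*} [Fintype τ] : lf (0 : τ → ℂ) = 0 := by
  unfold lf; simp

theorem lf_single {τ : Type*} [Fintype τ] [DecidableEq τ] (i : τ) :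
    lf (Pi.single i 1 : τ → ℂ) = X i := by
  unfold lf
  rw [Finset.sum_eq_single i]
  · simp
  · intro j _ hj
    simp [hj]
  · intro h
    exact absurd (Finset.mem_univ i) h

omit [Fintype σ] in
theorem sum_single (y : Fin 3) : ∑ y', (Pi.single y 1 : Fin 3 → ℂ) y' •
    (X (Sum.inr y') : MvPolynomial (σ ⊕ Fin 3) ℂ) = X (Sum.inr y) := by
  rw [Finset.sum_eq_single y]
  · simp
  · intro j _ hj
    simp [hj]
  · intro h
    exact absurd (Finset.mem_univ y) h

theorem two_smul_mem {τ : Type*} {S : Submodule ℂ (MvPolynomial τ ℂ)} {p : MvPolynomial τ ℂ}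
    (h : 2 * p ∈ S) : p ∈ S := by
  have h2 : (2 : MvPolynomial τ ℂ) * p = (2 : ℂ) • p := by
    rw [two_smul, two_mul]
  rw [h2] at h
  exact (Submodule.smul_mem_iff S (two_ne_zero)).mp h

section
variable {K r : ℕ} [DecidableEq σ] (cl : σ → Fin (K + 1)) (nn : Fin (K + 1) → Fin 3 → ℂ)
  (B : Fin r → σ → ℂ)

theorem YY_mem (y y' : Fin 3) {q : MvPolynomial (σ ⊕ Fin 3) ℂ}
    (hq : q ∈ homogeneousSubmodule (σ ⊕ Fin 3) ℂ 2) :
    X (Sum.inr y) * X (Sum.inr y') * q ∈ W 4 (pts cl nn B) := by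
  have h2 : ∀ y : Fin 3, X (Sum.inr y) ^ 2 * q ∈ W 4 (pts cl nn B) := by
    intro y
    have h := mem_W (B := pts cl nn B) (Sum.inr (Sum.inr (Sum.inl y))) hq
    have e : lf (pts cl nn B (Sum.inr (Sum.inr (Sum.inl y)))) = X (Sum.inr y) := by
      simp only [pts]
      rw [lf_elim, lf_zero, map_zero, zero_add, sum_single]
    rwa [e] at h
  have h3 : ∀ y : Fin 3, X (Sum.inr y) * X (Sum.inr (y + 1)) * q ∈ W 4 (pts cl nn B) := by
    intro y
    have h := mem_W (B := pts cl nn B) (Sum.inr (Sum.inr (Sum.inr y))) hq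
    have e : lf (pts cl nn B (Sum.inr (Sum.inr (Sum.inr y)))) =
        X (Sum.inr y) + X (Sum.inr (y + 1)) := by
      simp only [pts]
      rw [lf_elim, lf_zero, map_zero, zero_add]
      simp only [Pi.add_apply, add_smul, Finset.sum_add_distrib]
      rw [sum_single, sum_single]
    rw [e] at h
    apply two_smul_mem
    have h4 := Submodule.sub_mem _ (Submodule.sub_mem _ h (h2 y)) (h2 (y + 1))
    convert h4 using 1
    ring
  have hcases : ∀ y y' : Fin 3, y' = y ∨ y' = y + 1 ∨ y = y' + 1 := by decide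
  rcases hcases y y' with rfl | rfl | rfl
  · rw [← pow_two]; exact h2 _
  · exact h3 _
  · rw [mul_comm (X _) (X _)]; exact h3 _

theorem rename_four_mem (hB : homogeneousSubmodule σ ℂ 4 ≤ W 4 B) {p : MvPolynomial σ ℂ}
    (hp : p ∈ homogeneousSubmodule σ ℂ 4) :
    rename (Sum.inl : σ → σ ⊕ Fin 3) p ∈ W 4 (pts cl nn B) := by
  have h : W 4 B ≤ (W 4 (pts cl nn B)).comap
      (rename (Sum.inl : σ → σ ⊕ Fin 3) : MvPolynomial σ ℂ →ₐ[ℂ] _).toLinearMap := by
    unfold W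
    refine iSup_le fun i => ?_
    rintro _ ⟨q, hq, rfl⟩
    rw [Submodule.mem_comap]
    have h := mem_W (B := pts cl nn B) (Sum.inl i) (rename_mem Sum.inl hq)
    have e : lf (pts cl nn B (Sum.inl i)) = rename Sum.inl (lf (B i)) := by
      simp only [pts]
      rw [lf_elim]
      simp
    rw [e, ← map_pow, ← map_mul] at h
    exact h
  exact h (hB hp)

/-- the map `(p_y) ↦ ∑ p_y Y_y` -/
noncomputable def theta : (Fin 3 → MvPolynomial σ ℂ) →ₗ[ℂ] MvPolynomial (σ ⊕ Fin 3) ℂ :=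
  ∑ y : Fin 3, (LinearMap.mulRight ℂ (X (Sum.inr y))) ∘ₗ
    (rename (Sum.inl : σ → σ ⊕ Fin 3) : MvPolynomial σ ℂ →ₐ[ℂ] _).toLinearMap ∘ₗ
    LinearMap.proj y

omit [Fintype σ] [DecidableEq σ] in
theorem theta_apply (f : Fin 3 → MvPolynomial σ ℂ) :
    theta f = ∑ y, rename Sum.inl (f y) * X (Sum.inr y) := by
  unfold theta
  rw [LinearMap.sum_apply]
  rfl

theorem P0_le (hnn : nn 0 = 0) (hB : homogeneousSubmodule σ ℂ 4 ≤ W 4 B) :
    P0 cl nn ≤ (W 4 (pts cl nn B)).comap theta := by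
  unfold P0
  rw [Submodule.span_le]
  rintro f ⟨i, q, hq, rfl⟩
  rw [SetLike.mem_coe, Submodule.mem_comap, theta_apply]
  by_cases hi : cl i = 0
  · simp [hi, hnn]
  set N : MvPolynomial (σ ⊕ Fin 3) ℂ := ∑ y, nn (cl i) y • X (Sum.inr y) with hN
  set q' := rename (Sum.inl : σ → σ ⊕ Fin 3) q with hq'
  have hq2 : q' ∈ homogeneousSubmodule (σ ⊕ Fin 3) ℂ 2 := rename_mem _ hq
  have e0 : ∑ y, rename Sum.inl (nn (cl i) y • (X i * q)) * X (Sum.inr y) =
      X (Sum.inl i) * q' * N := by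
    rw [hN, Finset.mul_sum]
    refine Finset.sum_congr rfl fun y _ => ?_
    rw [map_smul, map_mul, rename_X, smul_mul_assoc, mul_smul_comm]
  rw [e0]
  have h := mem_W (B := pts cl nn B) (Sum.inr (Sum.inl ⟨i, hi⟩)) hq2
  have e : lf (pts cl nn B (Sum.inr (Sum.inl ⟨i, hi⟩))) = X (Sum.inl i) + N := by
    simp only [pts]
    rw [lf_elim, lf_single, rename_X]
  rw [e] at h
  have h1 : X (Sum.inl i) ^ 2 * q' ∈ W 4 (pts cl nn B) := by
    have : X (Sum.inl i) ^ 2 * q' = rename (Sum.inl : σ → σ ⊕ Fin 3) (X i ^ 2 * q) := by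
      simp [hq']
    rw [this]
    refine rename_four_mem cl nn B hB ?_
    exact ((isHomogeneous_X ℂ i).pow 2).mul hq
  have h2 : N ^ 2 * q' ∈ W 4 (pts cl nn B) := by
    have : N ^ 2 * q' = ∑ y, ∑ y', (nn (cl i) y * nn (cl i) y') •
        (X (Sum.inr y) * X (Sum.inr y') * q') := by
      rw [hN, pow_two, Finset.sum_mul_sum, Finset.sum_mul]
      refine Finset.sum_congr rfl fun y _ => ?_
      rw [Finset.sum_mul]
      refine Finset.sum_congr rfl fun y' _ => ?_
      rw [smul_mul_smul_comm, smul_mul_assoc]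
    rw [this]
    exact Submodule.sum_mem _ fun y _ => Submodule.sum_mem _ fun y' _ =>
      Submodule.smul_mem _ _ (YY_mem cl nn B y y' hq2)
  apply two_smul_mem
  have h4 := Submodule.sub_mem _ (Submodule.sub_mem _ h h1) h2
  convert h4 using 1
  ring

theorem nu_le (i : Fin r) : LinearMap.range (nu (B i)) ≤ (W 4 (pts cl nn B)).comap theta := by
  rintro _ ⟨ξ, rfl⟩
  rw [Submodule.mem_comap, theta_apply]
  have e : ∑ y, rename Sum.inl (nu (B i) ξ y) * X (Sum.inr y) =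
      lf (pts cl nn B (Sum.inl i)) ^ 2 * ∑ y, rename Sum.inl (vec ξ y) * X (Sum.inr y) := by
    have e1 : lf (pts cl nn B (Sum.inl i)) = rename Sum.inl (lf (B i)) := by
      simp only [pts]
      rw [lf_elim]
      simp
    rw [e1, Finset.mul_sum]
    refine Finset.sum_congr rfl fun y _ => ?_
    have : nu (B i) ξ y = lf (B i) ^ 2 * vec ξ y := rfl
    rw [this, map_mul, map_pow, mul_assoc]
  rw [e]
  refine mem_W _ (Submodule.sum_mem _ fun y _ => ?_)
  exact (rename_mem Sum.inl (lf_mem _)).mul (isHomogeneous_X ℂ _)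

end

end Horace

open Horace in
theorem horace {σ : Type*} [Fintype σ] [DecidableEq σ] {K r : ℕ} (cl : σ → Fin (K + 1))
    (nn : Fin (K + 1) → Fin 3 → ℂ) (hnn : nn 0 = 0) (B : Fin r → σ → ℂ)
    (hB : homogeneousSubmodule σ ℂ 4 ≤ W 4 B)
    (hT : T3 σ ≤ P0 cl nn ⊔ ⨆ i, LinearMap.range (nu (B i))) :
    Full (σ ⊕ Fin 3) (r + (Finset.univ.filter (fun i => cl i ≠ 0)).card + 6) := by
  have hcard : Fintype.card (Fin r ⊕ ({i // cl i ≠ 0} ⊕ (Fin 3 ⊕ Fin 3))) =
      r + (Finset.univ.filter (fun i => cl i ≠ 0)).card + 6 := by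
    simp only [Fintype.card_sum, Fintype.card_fin, Fintype.card_subtype]
    ring
  refine ⟨pts cl nn B ∘ (Fintype.equivFinOfCardEq hcard).symm, ?_⟩
  rw [W_comp]
  have hth : T3 σ ≤ (W 4 (pts cl nn B)).comap theta :=
    hT.trans (sup_le (P0_le cl nn B hnn hB) (iSup_le fun i => nu_le cl nn B i))
  have hth2 : ∀ (p : MvPolynomial σ ℂ) (y : Fin 3), p ∈ homogeneousSubmodule σ ℂ 3 →
      rename Sum.inl p * X (Sum.inr y) ∈ W 4 (pts cl nn B) := by
    intro p y hp
    have h1 : (Pi.single y p : Fin 3 → MvPolynomial σ ℂ) ∈ T3 σ := by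
      unfold T3
      rw [Submodule.mem_pi]
      intro y' _
      by_cases h : y' = y
      · subst h; rw [Pi.single_eq_same]; exact hp
      · rw [Pi.single_eq_of_ne h]; exact Submodule.zero_mem _
    have h2 := hth h1
    rw [Submodule.mem_comap, theta_apply, Finset.sum_eq_single y] at h2
    · rwa [Pi.single_eq_same] at h2
    · intro y' _ h
      rw [Pi.single_eq_of_ne h]; simp
    · intro h
      exact absurd (Finset.mem_univ y) h
  have hth3 : ∀ (a b c : σ) (y : Fin 3), X (Sum.inl a) * X (Sum.inl b) * X (Sum.inl c) *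
      X (Sum.inr y) ∈ W 4 (pts cl nn B) := by
    intro a b c y
    have := hth2 (X a * X b * X c) y (((isHomogeneous_X ℂ a).mul (isHomogeneous_X ℂ b)).mul
      (isHomogeneous_X ℂ c))
    simpa using this
  have hYY : ∀ (y y' : Fin 3) (a b : σ ⊕ Fin 3), X (Sum.inr y) * X (Sum.inr y') *
      (X a * X b) ∈ W 4 (pts cl nn B) := fun y y' a b => YY_mem cl nn B y y' (X_mul_X_mem a b)
  refine homog_four_le fun a b c d => ?_
  rcases a with a | a <;> rcases b with b | b <;> rcases c with c | c <;> rcases d with d | d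
  · have h := rename_four_mem cl nn B hB (p := X a * X b * (X c * X d))
      ((X_mul_X_mem a b).mul (X_mul_X_mem c d))
    simpa using h
  · convert hth3 a b c d using 1; ring
  · convert hth3 a b d c using 1; ring
  · convert hYY c d (Sum.inl a) (Sum.inl b) using 1; ring
  · convert hth3 a c d b using 1; ring
  · convert hYY b d (Sum.inl a) (Sum.inl c) using 1; ring
  · convert hYY b c (Sum.inl a) (Sum.inl d) using 1; ring
  · convert hYY b c (Sum.inl a) (Sum.inr d) using 1; ring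
  · convert hth3 b c d a using 1; ring
  · convert hYY a d (Sum.inl b) (Sum.inl c) using 1; ring
  · convert hYY a c (Sum.inl b) (Sum.inl d) using 1; ring
  · convert hYY a c (Sum.inl b) (Sum.inr d) using 1; ring
  · convert hYY a b (Sum.inl c) (Sum.inl d) using 1
  · convert hYY a b (Sum.inl c) (Sum.inr d) using 1
  · convert hYY a b (Sum.inr c) (Sum.inl d) using 1
  · convert hYY a b (Sum.inr c) (Sum.inr d) using 1

end Pool.Agent.Helper93.TP
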